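import Pool.Agent.H75.FixMain

/-!
Negative answer to Q1 of MP_254d34: there is a nonempty effectively closed subset `P` of the unit
square which does not represent the fixed-point set of any computably continuous self-map of the
square.  In fact each such fixed-point set has a point whose Turing degree is not the degree of any
member of `P`, so even a non-effective degree-preserving correspondence is impossible.

The definitions are in `Pool/Agent/H75/FixDefs.lean`.
-/

open Pool.Agent.H75.Fix in
theorem Pool.Agent.Results.MP_254d34_lc.NotRepresented.result :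
    ∃ P : Set (ℝ × ℝ), IsPi01 P ∧ P.Nonempty ∧
      ∀ f : ℝ × ℝ → ℝ × ℝ, CompCont f →
        ¬ Represents P (FixSet f) ∧ ∃ x ∈ FixSet f, ∀ z ∈ P, ¬ SameDegree x z := by
  obtain ⟨P, hP, hne, -, h⟩ := main
  refine ⟨P, hP, hne, fun f hf => ⟨?_, h f hf⟩⟩
  rintro ⟨F, G, hF, -, hdeg, -⟩
  obtain ⟨x, hx, hno⟩ := h f hf
  obtain ⟨z, hz, rfl⟩ := hF.surjOn hx
  exact hno z hz (hdeg z hz).symm
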